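import Pool.Agent.L7h13.XI.Fin

/-!
# Differential operators: algebra, symmetries, integration along vertical lines
-/

set_option autoImplicit false

open Complex Set Metric Polynomial

namespace Pool.Agent.L7h13.XD

open Pool.Agent.L7h13.SP Pool.Agent.L7h13.XI H370

lemma op_range (P : ℂ[X]) (f : ℂ → ℂ) (s : ℂ) {n : ℕ} (hn : P.natDegree < n) :
    Op P f s = ∑ k ∈ Finset.range n, P.coeff k * iteratedDeriv k f s := by
  have h1 := Polynomial.sum_over_range' P (f := fun k a => a * iteratedDeriv k f s)
    (fun k => by simp) n hn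
  have h2 := Polynomial.sum_over_range P (f := fun k a => a * iteratedDeriv k f s) (fun k => by simp)
  unfold Op
  rw [← h1, ← h2]

lemma iter_diff {f : ℂ → ℂ} (hf : Differentiable ℂ f) (k : ℕ) : Differentiable ℂ (iteratedDeriv k f) :=
  (hf.contDiff (n := ⊤)).differentiable_iteratedDeriv k (by exact_mod_cast WithTop.coe_lt_top _)

lemma op_diff {f : ℂ → ℂ} (hf : Differentiable ℂ f) (P : ℂ[X]) : Differentiable ℂ (Op P f) := by
  unfold Op
  apply Differentiable.fun_sum
  intro k _
  exact (iter_diff hf k).const_mul _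

/-- splitting off a linear factor -/
lemma op_root {f : ℂ → ℂ} (hf : Differentiable ℂ f) (Q : ℂ[X]) (lam s : ℂ) :
    Op ((X - C lam) * Q) f s = deriv (Op Q f) s - lam * Op Q f s := by
  set n := Q.natDegree + 2 with hn
  have hdeg : ((X - C lam) * Q).natDegree < n := by
    have := Polynomial.natDegree_mul_le (p := X - C lam) (q := Q)
    rw [Polynomial.natDegree_X_sub_C] at this
    omega
  rw [op_range _ f s hdeg]
  have hd : deriv (Op Q f) s = ∑ k ∈ Finset.range (n - 1), Q.coeff k * iteratedDeriv (k + 1) f s := by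
    unfold Op
    rw [deriv_fun_sum (fun k _ => ((iter_diff hf k) s).const_mul _)]
    have : n - 1 = Q.natDegree + 1 := by omega
    rw [this]
    apply Finset.sum_congr rfl
    intro k _
    rw [deriv_const_mul _ ((iter_diff hf k) s), iteratedDeriv_succ]
  have h2 : Op Q f s = ∑ k ∈ Finset.range n, Q.coeff k * iteratedDeriv k f s :=
    op_range Q f s (by omega)
  rw [hd, h2]
  have e1 : n = (n - 1) + 1 := by omega
  rw [e1, Finset.sum_range_succ', Finset.sum_range_succ' (fun k => Q.coeff k * iteratedDeriv k f s)]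
  have c0 : ((X - C lam) * Q).coeff 0 = -lam * Q.coeff 0 := by
    simp [Polynomial.mul_coeff_zero]
  have cs : ∀ k, ((X - C lam) * Q).coeff (k + 1) = Q.coeff k - lam * Q.coeff (k + 1) := by
    intro k
    rw [sub_mul, Polynomial.coeff_sub, Polynomial.coeff_X_mul, Polynomial.coeff_C_mul]
  simp only [c0, cs]
  rw [mul_add, Finset.mul_sum]
  have : (n - 1 + 1 - 1) = n - 1 := by omega
  rw [this]
  have e2 : ∑ k ∈ Finset.range (n - 1), (Q.coeff k - lam * Q.coeff (k + 1)) * iteratedDeriv (k + 1) f s =
      ∑ k ∈ Finset.range (n - 1), Q.coeff k * iteratedDeriv (k + 1) f s -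
      ∑ k ∈ Finset.range (n - 1), lam * (Q.coeff (k + 1) * iteratedDeriv (k + 1) f s) := by
    rw [← Finset.sum_sub_distrib]
    apply Finset.sum_congr rfl
    intro k _
    ring
  rw [e2]
  ring

lemma op_C {f : ℂ → ℂ} (c s : ℂ) : Op (C c) f s = c * f s := by
  unfold Op
  simp

/-- integration along a vertical line, one factor -/
lemma vert {lam : ℂ} (hlam : lam.im ≠ Real.pi / 4) {g : ℂ → ℂ} (hg : Differentiable ℂ g)
    {σ a K T₁ A C : ℝ} (hK : 0 ≤ K)
    (h : ∀ t : ℝ, T₁ ≤ t → ‖deriv g ⟨σ, t⟩ - lam * g ⟨σ, t⟩‖ ≤ K * t ^ a * Real.exp (-(Real.pi / 4 * t)))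
    (hA : ∀ t : ℝ, T₁ ≤ t → ‖g ⟨σ, t⟩‖ ≤ C * t ^ A * Real.exp (-(Real.pi / 4 * t))) :
    ∃ K' T₂ : ℝ, 0 ≤ K' ∧ ∀ t : ℝ, T₂ ≤ t → ‖g ⟨σ, t⟩‖ ≤ K' * t ^ a * Real.exp (-(Real.pi / 4 * t)) := by
  -- the function `e^{-iλt} g(σ + it)`
  set y : ℝ → ℂ := fun t => Complex.exp (-I * lam * t) * g ⟨σ, t⟩ with hy
  have hyd : ∀ t : ℝ, HasDerivAt y (I * Complex.exp (-I * lam * t) *
      (deriv g ⟨σ, t⟩ - lam * g ⟨σ, t⟩)) t := by
    intro t
    have h1 : HasDerivAt (fun u : ℝ => (⟨σ, u⟩ : ℂ)) I t := by
      have e : (fun u : ℝ => (⟨σ, u⟩ : ℂ)) = fun u : ℝ => (σ : ℂ) + (u : ℂ) * I := by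
        funext u
        apply Complex.ext <;> simp
      rw [e]
      have := ((Complex.ofRealCLM.hasDerivAt (x := t)).mul_const I).const_add (σ : ℂ)
      simpa using this
    have h2 : HasDerivAt (fun u : ℝ => g ⟨σ, u⟩) (deriv g ⟨σ, t⟩ * I) t :=
      HasDerivAt.comp_of_eq t ((hg _).hasDerivAt) h1 rfl
    have h3 : HasDerivAt (fun u : ℝ => Complex.exp (-I * lam * u))
        (Complex.exp (-I * lam * t) * (-I * lam)) t := by
      have h4 : HasDerivAt (fun u : ℝ => -I * lam * (u : ℂ)) (-I * lam) t := by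
        have := (Complex.ofRealCLM.hasDerivAt (x := t)).const_mul (-I * lam)
        simpa using this
      exact h4.cexp
    have h5 := h3.mul h2
    refine h5.congr_deriv ?_
    ring
  have hnorm : ∀ t : ℝ, ‖Complex.exp (-I * lam * t)‖ = Real.exp (lam.im * t) := by
    intro t
    rw [Complex.norm_exp]
    congr 1
    simp [Complex.mul_re]
  have hynorm : ∀ t : ℝ, ‖y t‖ = Real.exp (lam.im * t) * ‖g ⟨σ, t⟩‖ := by
    intro t
    simp only [hy]
    rw [norm_mul, hnorm]
  set c : ℝ := lam.im - Real.pi / 4 with hc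
  have hc0 : c ≠ 0 := sub_ne_zero.2 hlam
  have hc1 : 0 < |c| := abs_pos.2 hc0
  have hder : ∀ t : ℝ, T₁ ≤ t → ‖I * Complex.exp (-I * lam * t) *
      (deriv g ⟨σ, t⟩ - lam * g ⟨σ, t⟩)‖ ≤ K * t ^ a * Real.exp (c * t) := by
    intro t ht
    rw [norm_mul, norm_mul, Complex.norm_I, one_mul, hnorm]
    calc Real.exp (lam.im * t) * ‖deriv g ⟨σ, t⟩ - lam * g ⟨σ, t⟩‖
        ≤ Real.exp (lam.im * t) * (K * t ^ a * Real.exp (-(Real.pi / 4 * t))) :=
          mul_le_mul_of_nonneg_left (h t ht) (Real.exp_pos _).le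
      _ = K * t ^ a * (Real.exp (lam.im * t) * Real.exp (-(Real.pi / 4 * t))) := by ring
      _ = K * t ^ a * Real.exp (c * t) := by
          rw [← Real.exp_add]; congr 2; rw [hc]; ring
  have hback : ∀ t : ℝ, ‖g ⟨σ, t⟩‖ = Real.exp (-(lam.im * t)) * ‖y t‖ := by
    intro t
    rw [hynorm, ← mul_assoc, ← Real.exp_add]
    simp
  -- the derivative of the comparison function
  have hBd : ∀ t : ℝ, 0 < t → HasDerivAt (fun u : ℝ => 2 * K / c * (u ^ a * Real.exp (c * u)))
      (2 * K / c * ((a * t ^ (a - 1)) * Real.exp (c * t) + t ^ a * (Real.exp (c * t) * c))) t := by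
    intro t ht
    have h1 : HasDerivAt (fun u : ℝ => u ^ a) (a * t ^ (a - 1)) t := by
      have := Real.hasDerivAt_rpow_const (x := t) (p := a) (Or.inl ht.ne')
      exact this
    have h2 : HasDerivAt (fun u : ℝ => Real.exp (c * u)) (Real.exp (c * t) * c) t := by
      have h3 : HasDerivAt (fun u : ℝ => c * u) c t := by simpa using (hasDerivAt_id t).const_mul c
      exact h3.exp
    exact (h1.mul h2).const_mul _
  have hBge : ∀ t : ℝ, 2 * |a| / |c| + 1 ≤ t → K * t ^ a * Real.exp (c * t) ≤
      2 * K / c * ((a * t ^ (a - 1)) * Real.exp (c * t) + t ^ a * (Real.exp (c * t) * c)) := by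
    intro t ht
    have ht1 : 0 < t := by
      have : 0 ≤ 2 * |a| / |c| := by positivity
      linarith
    have e1 : t ^ (a - 1) = t ^ a / t := by
      rw [Real.rpow_sub ht1, Real.rpow_one]
    have e2 : 2 * K / c * ((a * t ^ (a - 1)) * Real.exp (c * t) + t ^ a * (Real.exp (c * t) * c)) =
        K * t ^ a * Real.exp (c * t) * (2 + 2 * (a / (c * t))) := by
      rw [e1]; field_simp; ring
    rw [e2]
    have h1 : |a / (c * t)| ≤ 1 / 2 := by
      rw [abs_div, abs_mul, abs_of_pos ht1, div_le_iff₀ (by positivity)]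
      have h2 : 2 * |a| / |c| ≤ t := by linarith
      rw [div_le_iff₀ hc1] at h2
      linarith
    have h3 := (abs_le.1 h1).1
    have h4 : 0 ≤ K * t ^ a * Real.exp (c * t) := by positivity
    nlinarith
  set T₀ : ℝ := max (max T₁ 1) (2 * |a| / |c| + 1) with hT₀
  have t1 : T₁ ≤ T₀ := (le_max_left _ _).trans (le_max_left _ _)
  have t2 : 1 ≤ T₀ := (le_max_right _ _).trans (le_max_left _ _)
  have t3 : 2 * |a| / |c| + 1 ≤ T₀ := le_max_right _ _
  rcases lt_or_gt_of_ne hc0 with hneg | hpos
  · -- from infinity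
    refine ⟨2 * K / |c|, T₀, by positivity, fun t ht => ?_⟩
    have ht0 : 0 < t := by linarith
    have key : ∀ R : ℝ, t ≤ R → ‖y t‖ ≤ ‖y R‖ + 2 * K / |c| * (t ^ a * Real.exp (c * t)) := by
      intro R hR
      have hb := image_norm_le_of_norm_deriv_right_le_deriv_boundary' (a := 0) (b := R - t)
        (f := fun v : ℝ => y (R - v)) (f' := fun v : ℝ => -(I * Complex.exp (-I * lam * ((R - v : ℝ) : ℂ)) *
          (deriv g ⟨σ, R - v⟩ - lam * g ⟨σ, R - v⟩)))
        (B := fun v : ℝ => ‖y R‖ - 2 * K / c * ((R - v) ^ a * Real.exp (c * (R - v))) +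
          2 * K / c * (R ^ a * Real.exp (c * R)))
        (B' := fun v : ℝ => 2 * K / c * ((a * (R - v) ^ (a - 1)) * Real.exp (c * (R - v)) +
          (R - v) ^ a * (Real.exp (c * (R - v)) * c)))
        (by
          intro v _
          have h1 : HasDerivAt (fun v : ℝ => R - v) (-1) v := by
            simpa using (hasDerivAt_id v).const_sub R
          exact (HasDerivAt.scomp v (hyd (R - v)) h1).continuousAt.continuousWithinAt)
        (by
          intro v _
          have h1 : HasDerivAt (fun v : ℝ => R - v) (-1) v := by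
            simpa using (hasDerivAt_id v).const_sub R
          have h2 := HasDerivAt.scomp v (hyd (R - v)) h1
          rw [neg_one_smul] at h2
          exact h2.hasDerivWithinAt)
        (by simp)
        (by
          intro v hv
          have h0 : 0 < R - v := by linarith [hv.2]
          have h1 : HasDerivAt (fun v : ℝ => R - v) (-1) v := by
            simpa using (hasDerivAt_id v).const_sub R
          have h2 := HasDerivAt.comp v (hBd (R - v) h0) h1
          exact ((h2.const_sub ‖y R‖).add_const _).continuousAt.continuousWithinAt)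
        (by
          intro v hv
          have h0 : 0 < R - v := by linarith [hv.2]
          have h1 : HasDerivAt (fun v : ℝ => R - v) (-1) v := by
            simpa using (hasDerivAt_id v).const_sub R
          have h2 := HasDerivAt.comp v (hBd (R - v) h0) h1
          have h3 := ((h2.const_sub ‖y R‖).add_const (2 * K / c * (R ^ a * Real.exp (c * R))))
          refine (h3.congr_deriv ?_).hasDerivWithinAt
          ring)
        (by
          intro v hv
          have h0 : T₀ ≤ R - v := by linarith [hv.2]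
          rw [norm_neg]
          exact (hder (R - v) (t1.trans h0)).trans (hBge (R - v) (t3.trans h0)))
        (x := R - t) ⟨by linarith, le_rfl⟩
      simp only [sub_sub_cancel] at hb
      have e1 : |c| = -c := abs_of_neg hneg
      have e2 : 2 * K / c * (R ^ a * Real.exp (c * R)) ≤ 0 := by
        have h1 : 2 * K / c ≤ 0 := div_nonpos_of_nonneg_of_nonpos (by positivity) hneg.le
        have h2 : 0 ≤ R ^ a * Real.exp (c * R) := by
          have : 0 < R := by linarith
          positivity
        nlinarith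
      have e3 : 2 * K / |c| * (t ^ a * Real.exp (c * t)) = -(2 * K / c * (t ^ a * Real.exp (c * t))) := by
        rw [e1, div_neg]; ring
      linarith
    -- the limit
    have hlim : Filter.Tendsto (fun R : ℝ => C * R ^ A * Real.exp (c * R)) Filter.atTop (nhds 0) := by
      have h1 := tendsto_rpow_mul_exp_neg_mul_atTop_nhds_zero A (-c) (by linarith)
      simp only [neg_neg] at h1
      have h2 := h1.const_mul C
      simpa [mul_assoc] using h2
    have hy0 : ‖y t‖ ≤ 0 + 2 * K / |c| * (t ^ a * Real.exp (c * t)) := by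
      refine ge_of_tendsto (hlim.add_const _) ?_
      filter_upwards [Filter.eventually_ge_atTop t] with R hR
      refine (key R hR).trans ?_
      apply add_le_add_left
      rw [hynorm]
      calc Real.exp (lam.im * R) * ‖g ⟨σ, R⟩‖
          ≤ Real.exp (lam.im * R) * (C * R ^ A * Real.exp (-(Real.pi / 4 * R))) :=
            mul_le_mul_of_nonneg_left (hA R (t1.trans (ht.trans hR))) (Real.exp_pos _).le
        _ = C * R ^ A * (Real.exp (lam.im * R) * Real.exp (-(Real.pi / 4 * R))) := by ring
        _ = C * R ^ A * Real.exp (c * R) := by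
            rw [← Real.exp_add]; congr 2; rw [hc]; ring
    rw [zero_add] at hy0
    rw [hback]
    calc Real.exp (-(lam.im * t)) * ‖y t‖
        ≤ Real.exp (-(lam.im * t)) * (2 * K / |c| * (t ^ a * Real.exp (c * t))) :=
          mul_le_mul_of_nonneg_left hy0 (Real.exp_pos _).le
      _ = 2 * K / |c| * t ^ a * (Real.exp (-(lam.im * t)) * Real.exp (c * t)) := by ring
      _ = _ := by
          rw [← Real.exp_add]; congr 2; rw [hc]; ring
  · -- from the left end point
    have hcabs : |c| = c := abs_of_pos hpos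
    -- the initial value is absorbed
    have hlim : Filter.Tendsto (fun R : ℝ => ‖y T₀‖ * (R ^ (-a) * Real.exp (-c * R))) Filter.atTop (nhds 0) := by
      have h1 := tendsto_rpow_mul_exp_neg_mul_atTop_nhds_zero (-a) c hpos
      simpa using h1.const_mul ‖y T₀‖
    obtain ⟨T₂, hT₂⟩ := Filter.eventually_atTop.1 (hlim.eventually_le_const one_pos)
    refine ⟨2 * K / c + 1, max T₀ T₂, by positivity, fun t ht => ?_⟩
    have g1 : T₀ ≤ t := (le_max_left _ _).trans ht
    have g2 := hT₂ t ((le_max_right _ _).trans ht)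
    have ht0 : 0 < t := by linarith
    have hb := image_norm_le_of_norm_deriv_right_le_deriv_boundary' (a := T₀) (b := t)
      (f := y) (f' := fun v : ℝ => I * Complex.exp (-I * lam * v) *
          (deriv g ⟨σ, v⟩ - lam * g ⟨σ, v⟩))
      (B := fun v : ℝ => 2 * K / c * (v ^ a * Real.exp (c * v)) + ‖y T₀‖)
      (B' := fun v : ℝ => 2 * K / c * ((a * v ^ (a - 1)) * Real.exp (c * v) +
          v ^ a * (Real.exp (c * v) * c)))
      (fun v _ => (hyd v).continuousAt.continuousWithinAt)
      (fun v _ => (hyd v).hasDerivWithinAt)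
      (by
        have : 0 ≤ 2 * K / c * (T₀ ^ a * Real.exp (c * T₀)) := by
          have : 0 < T₀ := by linarith
          positivity
        linarith)
      (fun v hv => ((hBd v (by linarith [hv.1])).add_const _).continuousAt.continuousWithinAt)
      (fun v hv => ((hBd v (by linarith [hv.1])).add_const _).hasDerivWithinAt)
      (by
        intro v hv
        exact (hder v (t1.trans hv.1)).trans (hBge v (t3.trans hv.1)))
      (x := t) ⟨g1, le_rfl⟩
    have g3 : ‖y T₀‖ ≤ t ^ a * Real.exp (c * t) := by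
      have e1 : t ^ (-a) * Real.exp (-c * t) = (t ^ a * Real.exp (c * t))⁻¹ := by
        rw [Real.rpow_neg ht0.le, mul_inv, ← Real.exp_neg]
        congr 2
        ring
      rw [e1, ← div_eq_mul_inv, div_le_one (by positivity)] at g2
      exact g2
    rw [hback]
    calc Real.exp (-(lam.im * t)) * ‖y t‖
        ≤ Real.exp (-(lam.im * t)) * (2 * K / c * (t ^ a * Real.exp (c * t)) + t ^ a * Real.exp (c * t)) :=
          mul_le_mul_of_nonneg_left (by linarith) (Real.exp_pos _).le
      _ = (2 * K / c + 1) * t ^ a * (Real.exp (-(lam.im * t)) * Real.exp (c * t)) := by ring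
      _ = _ := by
          rw [← Real.exp_add]; congr 2; rw [hc]; ring

end Pool.Agent.L7h13.XD
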