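import Pool.Agent.L7h13.XD.Alg

/-!
# The size of `P(d/ds) ξ`
-/

set_option autoImplicit false

open Complex Set Metric Polynomial

namespace Pool.Agent.L7h13.XD

open Pool.Agent.L7h13.SP Pool.Agent.L7h13.XI H370

/-- integration along a vertical line -/
lemma vert_poly {f : ℂ → ℂ} (hf : Differentiable ℂ f) {σ a : ℝ}
    (hcrude : ∀ Q : ℂ[X], ∃ A C T : ℝ, ∀ t : ℝ, T ≤ t →
      ‖Op Q f ⟨σ, t⟩‖ ≤ C * t ^ A * Real.exp (-(Real.pi / 4 * t))) :
    ∀ (n : ℕ) (P : ℂ[X]), P.natDegree = n → P ≠ 0 → (∀ lam, P.IsRoot lam → lam.im ≠ Real.pi / 4) →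
    (∃ K T : ℝ, 0 ≤ K ∧ ∀ t : ℝ, T ≤ t → ‖Op P f ⟨σ, t⟩‖ ≤ K * t ^ a * Real.exp (-(Real.pi / 4 * t))) →
    ∃ K T : ℝ, 0 ≤ K ∧ ∀ t : ℝ, T ≤ t → ‖f ⟨σ, t⟩‖ ≤ K * t ^ a * Real.exp (-(Real.pi / 4 * t)) := by
  intro n
  induction n with
  | zero =>
    intro P hdeg hP _ ⟨K, T, hK, h⟩
    rw [Polynomial.eq_C_of_natDegree_eq_zero hdeg] at h hP
    set c := P.coeff 0 with hc
    have hc0 : c ≠ 0 := by
      intro h0
      rw [h0, C_0] at hP
      exact hP rfl
    have hc1 : 0 < ‖c‖ := norm_pos_iff.2 hc0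
    refine ⟨K / ‖c‖, T, by positivity, fun t ht => ?_⟩
    have h1 := h t ht
    rw [op_C, norm_mul] at h1
    calc ‖f ⟨σ, t⟩‖ = ‖c‖ * ‖f ⟨σ, t⟩‖ / ‖c‖ := by field_simp
      _ ≤ K * t ^ a * Real.exp (-(Real.pi / 4 * t)) / ‖c‖ := div_le_div_of_nonneg_right h1 hc1.le
      _ = _ := by ring
  | succ n ih =>
    intro P hdeg hP hroot ⟨K, T, hK, h⟩
    obtain ⟨lam, hlam⟩ := IsAlgClosed.exists_root P (by
      rw [Polynomial.degree_eq_natDegree hP, hdeg]
      exact_mod_cast Nat.succ_ne_zero n)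
    have hdiv := Polynomial.mul_divByMonic_eq_iff_isRoot.2 hlam
    set Q := P /ₘ (X - C lam) with hQ
    have hQ0 : Q ≠ 0 := by
      intro h0
      rw [h0, mul_zero] at hdiv
      exact hP hdiv.symm
    have hQdeg : Q.natDegree = n := by
      have h1 := Polynomial.natDegree_mul (Polynomial.X_sub_C_ne_zero lam) hQ0
      rw [hdiv, hdeg, Polynomial.natDegree_X_sub_C] at h1
      omega
    refine ih Q hQdeg hQ0 (fun μ hμ => hroot μ ?_) ?_
    · rw [← hdiv]
      unfold IsRoot at hμ ⊢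
      rw [Polynomial.eval_mul, hμ, mul_zero]
    · obtain ⟨A, C', T', hA⟩ := hcrude Q
      have h2 := vert (hroot lam hlam) (op_diff hf Q) (σ := σ) (a := a) (K := K) (T₁ := max T T') (A := A)
        (C := C') hK (fun t ht => by
          rw [← op_root hf Q lam, hdiv]
          exact h t ((le_max_left _ _).trans ht))
        (fun t ht => hA t ((le_max_right _ _).trans ht))
      exact h2

/-- the derivatives of `exp (l u) H u` for large `l` -/
lemma expderiv' (k : ℕ) {r : ℝ} (hr : 0 < r) : ∃ C : ℝ, 0 ≤ C ∧ ∀ (l M : ℝ) (H : ℂ → ℂ), 1 ≤ l →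
    2 / r ≤ l → 0 ≤ M → AnalyticOnNhd ℂ H (closedBall 0 r) → (∀ u ∈ closedBall (0:ℂ) r, ‖H u‖ ≤ M) →
    ‖iteratedDeriv k (fun u => Complex.exp ((l : ℂ) * u) * H u) 0 - (l:ℂ) ^ k * H 0‖ ≤
      C * M * l ^ k / l := by
  obtain ⟨C, hC, h⟩ := expderiv k hr
  refine ⟨C, hC, fun l M H hl hlr hM hH hb => ?_⟩
  have hneg : ∀ u : ℂ, u ∈ closedBall (0:ℂ) r → -u ∈ closedBall (0:ℂ) r := fun u hu => by
    rw [mem_closedBall, dist_zero_right] at hu ⊢
    rwa [norm_neg]
  have h1 := h l M (fun u => H (-u)) hl hlr hM (fun u hu =>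
    AnalyticAt.comp (g := H) (f := fun u : ℂ => -u) (hH _ (hneg u hu)) (by fun_prop))
    (fun u hu => hb _ (hneg u hu))
  have e1 : (fun u : ℂ => Complex.exp (-(l : ℂ) * u) * H (-u)) =
      fun u => (fun v => Complex.exp ((l : ℂ) * v) * H v) (-u) := by
    funext u
    simp only
    congr 2
    ring
  have e0 : iteratedDeriv k (fun u : ℂ => Complex.exp (-(l : ℂ) * u) * H (-u)) 0 =
      (-1 : ℂ) ^ k * iteratedDeriv k (fun v => Complex.exp ((l : ℂ) * v) * H v) 0 := by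
    rw [e1]
    have h2 := iteratedDeriv_comp_neg k (fun v : ℂ => Complex.exp ((l : ℂ) * v) * H v) 0
    rw [neg_zero, smul_eq_mul] at h2
    exact h2
  simp only [neg_zero] at h1
  rw [e0] at h1
  have e2 : (-1 : ℂ) ^ k * iteratedDeriv k (fun v => Complex.exp ((l : ℂ) * v) * H v) 0 -
      (-(l : ℂ)) ^ k * H 0 = (-1) ^ k * (iteratedDeriv k (fun v => Complex.exp ((l : ℂ) * v) * H v) 0 -
      (l : ℂ) ^ k * H 0) := by
    rw [neg_pow (l : ℂ)]; ring
  rw [e2, norm_mul, norm_pow, norm_neg, norm_one, one_pow, one_mul] at h1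
  exact h1

/-- the size of `ξ` at nearby points -/
lemma sz_near {t : ℝ} {w v : ℂ} (hw : w.im = t) (ht : 4 ≤ t) (hv : ‖v‖ ≤ 1) (h1 : 0 ≤ w.re)
    (h2 : w.re ≤ 6) : sz (w + v) ≤ 64 * Real.exp 1 * t ^ (v.re / 2) * sz w := by
  have ht0 : 0 < t := by linarith
  have hre := abs_le.1 ((Complex.abs_re_le_norm v).trans hv)
  have him := abs_le.1 ((Complex.abs_im_le_norm v).trans hv)
  unfold sz
  rw [Complex.add_re, Complex.add_im, hw]
  have e1 : (t + v.im) ^ ((w.re + v.re - 1 / 2) / 2 + 7 / 4) ≤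
      64 * (t ^ (v.re / 2) * t ^ ((w.re - 1 / 2) / 2 + 7 / 4)) := by
    have h3 := rpow_near (T := t) (t := t + v.im) (p := (w.re + v.re - 1 / 2) / 2 + 7 / 4) ht0
      (by linarith) (by linarith)
    refine h3.trans ?_
    rw [← Real.rpow_add ht0]
    have h4 : (2:ℝ) ^ |(w.re + v.re - 1 / 2) / 2 + 7 / 4| ≤ 64 := by
      calc (2:ℝ) ^ |(w.re + v.re - 1 / 2) / 2 + 7 / 4| ≤ 2 ^ (6:ℝ) := by
            apply Real.rpow_le_rpow_of_exponent_le (by norm_num)
            rw [abs_le]; constructor <;> linarith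
        _ = 64 := by norm_num
    have h5 : (w.re + v.re - 1 / 2) / 2 + 7 / 4 = v.re / 2 + ((w.re - 1 / 2) / 2 + 7 / 4) := by ring
    rw [h5] at h4 ⊢
    exact mul_le_mul_of_nonneg_right h4 (by positivity)
  have e2 : Real.exp (-(Real.pi / 4 * (t + v.im))) ≤ Real.exp 1 * Real.exp (-(Real.pi / 4 * t)) := by
    rw [← Real.exp_add]
    apply Real.exp_le_exp.2
    have := Real.pi_pos
    have := Real.pi_lt_four
    nlinarith
  calc (t + v.im) ^ ((w.re + v.re - 1 / 2) / 2 + 7 / 4) * Real.exp (-(Real.pi / 4 * (t + v.im)))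
      ≤ (64 * (t ^ (v.re / 2) * t ^ ((w.re - 1 / 2) / 2 + 7 / 4))) *
        (Real.exp 1 * Real.exp (-(Real.pi / 4 * t))) := by
        apply mul_le_mul e1 e2 (Real.exp_pos _).le (by positivity)
    _ = _ := by ring

/-- the derivatives of `ξ` to the right -/
lemma cenX (k : ℕ) : ∃ C T₀ : ℝ, 0 ≤ C ∧ 4 ≤ T₀ ∧ ∀ w : ℂ, 3 / 2 ≤ w.re → w.re ≤ 5 → T₀ ≤ w.im →
    ‖iteratedDeriv k xi w - ((Real.log w.im / 2 : ℝ) : ℂ) ^ k * xi w‖ ≤
      C * ‖xi w‖ * (Real.log w.im / 2) ^ k / (Real.log w.im / 2) := by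
  obtain ⟨c₁, C₁, hc1, hC1, hs⟩ := xi_size 6
  obtain ⟨A, hA1, hA⟩ := Pool.Agent.Y757.LS.zeta_bounds (a := 5 / 4) (by norm_num)
  have hA0 : 0 < A := by linarith
  obtain ⟨C, hC, hE⟩ := expderiv' k (r := 1 / 8) (by norm_num)
  set M : ℝ := C₁ * A * (64 * Real.exp 1) / (c₁ / A) with hM
  have hM0 : 0 < M := by positivity
  refine ⟨C * M, max 4 (Real.exp 32), by positivity, le_max_left _ _, fun w h1 h2 h3 => ?_⟩
  have ht4 : 4 ≤ w.im := (le_max_left _ _).trans h3
  have ht0 : 0 < w.im := by linarith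
  have hlog : 32 ≤ Real.log w.im := (Real.le_log_iff_exp_le ht0).2 ((le_max_right _ _).trans h3)
  set t := w.im with ht
  set l : ℝ := Real.log t / 2 with hl
  have hl16 : 16 ≤ l := by rw [hl]; linarith
  -- lower bound for xi w
  have hszw : 0 < sz w := sz_pos ht0
  have low : c₁ / A * sz w ≤ ‖xi w‖ := by
    have k1 := (hs w (by push_cast; linarith) (by push_cast; linarith) (by linarith)).1
    have k2 := (hA w (by linarith)).2
    refine le_trans ?_ k1
    calc c₁ / A * sz w = c₁ * sz w * (1 / A) := by ring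
      _ ≤ _ := mul_le_mul_of_nonneg_left k2 (by positivity)
  have hxi : 0 < ‖xi w‖ := lt_of_lt_of_le (by positivity) low
  have hxi0 : xi w ≠ 0 := norm_pos_iff.1 hxi
  set H : ℂ → ℂ := fun u => Complex.exp (-(l : ℂ) * u) * (xi (w + u) / xi w) with hH
  have hHa : AnalyticOnNhd ℂ H (closedBall 0 (1 / 8)) := by
    intro u _
    have h6 : AnalyticAt ℂ (fun u : ℂ => xi (w + u)) u :=
      AnalyticAt.comp (g := xi) (f := fun u : ℂ => w + u) (xi_an _) (by fun_prop)
    have h7 : AnalyticAt ℂ (fun u : ℂ => Complex.exp (-(l : ℂ) * u)) u := by fun_prop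
    exact h7.mul (h6.div analyticAt_const hxi0)
  have hHb : ∀ u ∈ closedBall (0:ℂ) (1 / 8), ‖H u‖ ≤ M := by
    intro u hu
    rw [mem_closedBall, dist_zero_right] at hu
    have a1 := abs_le.1 ((Complex.abs_re_le_norm u).trans hu)
    have a2 := abs_le.1 ((Complex.abs_im_le_norm u).trans hu)
    have r1 : (w + u).re = w.re + u.re := by simp
    have i1 : (w + u).im = t + u.im := by rw [Complex.add_im]
    have k1 := (hs (w + u) (by rw [r1]; push_cast; linarith) (by rw [r1]; push_cast; linarith)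
      (by rw [i1]; linarith)).2
    have k2 := (hA (w + u) (by rw [r1]; linarith)).1
    have k3 := sz_near (w := w) (v := u) (t := t) rfl ht4 (by linarith) (by linarith) (by linarith)
    have hszu : 0 < sz (w + u) := sz_pos (by rw [i1]; linarith)
    have k4 : ‖xi (w + u)‖ ≤ C₁ * A * (64 * Real.exp 1) * (t ^ (u.re / 2) * sz w) := by
      calc ‖xi (w + u)‖ ≤ C₁ * sz (w + u) * ‖riemannZeta (w + u)‖ := k1
        _ ≤ C₁ * (64 * Real.exp 1 * t ^ (u.re / 2) * sz w) * A := by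
            apply mul_le_mul (mul_le_mul_of_nonneg_left k3 hC1.le) k2 (norm_nonneg _) (by positivity)
        _ = _ := by ring
    simp only [hH]
    rw [norm_mul, norm_div, Complex.norm_exp]
    have e1 : (-(l : ℂ) * u).re = -(l * u.re) := by simp
    have e2 : Real.exp (-(l * u.re)) = t ^ (-(u.re / 2)) := by
      rw [Real.rpow_def_of_pos ht0, hl]
      congr 1; ring
    rw [e1, e2]
    have e3 : ‖xi (w + u)‖ / ‖xi w‖ ≤ (C₁ * A * (64 * Real.exp 1) * (t ^ (u.re / 2) * sz w)) /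
        (c₁ / A * sz w) := div_le_div₀ (by positivity) k4 (by positivity) low
    have e4 : t ^ (-(u.re / 2)) * t ^ (u.re / 2) = 1 := by
      rw [← Real.rpow_add ht0]; simp
    calc t ^ (-(u.re / 2)) * (‖xi (w + u)‖ / ‖xi w‖)
        ≤ t ^ (-(u.re / 2)) * ((C₁ * A * (64 * Real.exp 1) * (t ^ (u.re / 2) * sz w)) /
          (c₁ / A * sz w)) := mul_le_mul_of_nonneg_left e3 (by positivity)
      _ = (t ^ (-(u.re / 2)) * t ^ (u.re / 2)) * (C₁ * A * (64 * Real.exp 1) / (c₁ / A)) := by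
          field_simp
      _ = M := by rw [e4, one_mul]
  have key := hE l M H (by linarith) (by linarith) hM0.le hHa hHb
  have e2 : (fun u => Complex.exp ((l : ℂ) * u) * H u) = fun u => (xi w)⁻¹ * xi (w + u) := by
    funext u
    simp only [hH]
    rw [← mul_assoc, ← Complex.exp_add]
    have : (l : ℂ) * u + -(l : ℂ) * u = 0 := by ring
    rw [this, Complex.exp_zero, one_mul]
    ring
  have e3 : iteratedDeriv k (fun u => Complex.exp ((l : ℂ) * u) * H u) 0 =
      iteratedDeriv k xi w / xi w := by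
    rw [e2, iteratedDeriv_const_mul_field, iteratedDeriv_comp_const_add]
    simp only [add_zero]
    ring
  have e4 : H 0 = 1 := by
    simp only [hH]
    rw [mul_zero, Complex.exp_zero, one_mul, add_zero, div_self hxi0]
  rw [e3, e4, mul_one] at key
  have e5 : iteratedDeriv k xi w - (l : ℂ) ^ k * xi w = (iteratedDeriv k xi w / xi w - (l : ℂ) ^ k) * xi w := by
    field_simp
  rw [e5, norm_mul]
  calc ‖iteratedDeriv k xi w / xi w - (l : ℂ) ^ k‖ * ‖xi w‖ ≤ (C * M * l ^ k / l) * ‖xi w‖ :=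
        mul_le_mul_of_nonneg_right key hxi.le
    _ = _ := by ring

/-- the size of `P(d/ds) ξ` to the right -/
lemma opx_cen {P : ℂ[X]} (hP : P ≠ 0) : ∃ c C T₀ : ℝ, 0 < c ∧ 0 < C ∧ 4 ≤ T₀ ∧ ∀ w : ℂ,
    3 / 2 ≤ w.re → w.re ≤ 5 → T₀ ≤ w.im →
      c * Real.log w.im ^ P.natDegree * sz w ≤ ‖Op P xi w‖ ∧
      ‖Op P xi w‖ ≤ C * Real.log w.im ^ P.natDegree * sz w := by
  choose D T hD0 hT4 hD using cenX
  obtain ⟨c₁, C₁, hc1, hC1, hs⟩ := xi_size 6
  obtain ⟨A, hA1, hA⟩ := Pool.Agent.Y757.LS.zeta_bounds (a := 5 / 4) (by norm_num)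
  have hA0 : 0 < A := by linarith
  set d := P.natDegree with hd
  have hlc : P.leadingCoeff ≠ 0 := leadingCoeff_ne_zero.2 hP
  have hlc0 : 0 < ‖P.leadingCoeff‖ := norm_pos_iff.2 hlc
  set a := ‖P.leadingCoeff‖ with ha
  set S : ℝ := ∑ k ∈ Finset.range (d + 1), ‖P.coeff k‖ * (D k + 1) with hS
  have hS0 : 0 ≤ S := Finset.sum_nonneg fun k _ => mul_nonneg (norm_nonneg _) (by linarith [hD0 k])
  set T₁ : ℝ := ∑ k ∈ Finset.range (d + 1), T k with hT₁
  have hTk : ∀ k ∈ Finset.range (d + 1), T k ≤ T₁ := fun k hk =>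
    Finset.single_le_sum (f := T) (fun i _ => by linarith [hT4 i]) hk
  set l₀ : ℝ := 1 + 2 * S / a with hl₀
  have hl01 : 1 ≤ l₀ := by
    have : 0 ≤ 2 * S / a := by positivity
    linarith
  refine ⟨a / 2 * (1 / 2) ^ d * (c₁ / A), (a + S) * (C₁ * A),
    max (max 4 T₁) (Real.exp (2 * l₀)), by positivity, by positivity,
    (le_max_left _ _).trans (le_max_left _ _), fun w h1 h2 h3 => ?_⟩
  have hT4' : 4 ≤ w.im := ((le_max_left _ _).trans (le_max_left _ _)).trans h3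
  have hT1' : T₁ ≤ w.im := ((le_max_right _ _).trans (le_max_left _ _)).trans h3
  have hT0 : 0 < w.im := by linarith
  have hlog : 2 * l₀ ≤ Real.log w.im := (Real.le_log_iff_exp_le hT0).2 ((le_max_right _ _).trans h3)
  set L := Real.log w.im with hL
  set l : ℝ := L / 2 with hl
  have hl0' : l₀ ≤ l := by rw [hl]; linarith
  have hl1 : 1 ≤ l := hl01.trans hl0'
  have hl0 : 0 < l := by linarith
  have hszw : 0 < sz w := sz_pos hT0
  obtain ⟨k1, k1'⟩ := hs w (by push_cast; linarith) (by push_cast; linarith) (by linarith)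
  obtain ⟨k2, k2'⟩ := hA w (by linarith)
  have low : c₁ / A * sz w ≤ ‖xi w‖ := by
    refine le_trans ?_ k1
    calc c₁ / A * sz w = c₁ * sz w * (1 / A) := by ring
      _ ≤ _ := mul_le_mul_of_nonneg_left k2' (by positivity)
  have upp : ‖xi w‖ ≤ C₁ * A * sz w := by
    refine k1'.trans ?_
    calc C₁ * sz w * ‖riemannZeta w‖ ≤ C₁ * sz w * A := mul_le_mul_of_nonneg_left k2 (by positivity)
      _ = _ := by ring
  have hxi0 := norm_nonneg (xi w)
  have hmain : ‖Op P xi w - P.leadingCoeff * ((l : ℂ) ^ d * xi w)‖ ≤ S * (l ^ d / l) * ‖xi w‖ := by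
    unfold Op
    rw [Finset.sum_range_succ]
    have e1 : P.coeff d = P.leadingCoeff := rfl
    rw [← hd, e1, add_sub_assoc, ← mul_sub, hS, Finset.sum_mul, Finset.sum_mul, Finset.sum_range_succ]
    refine (norm_add_le _ _).trans (add_le_add ?_ ?_)
    · refine (norm_sum_le _ _).trans (Finset.sum_le_sum fun k hk => ?_)
      rw [Finset.mem_range] at hk
      have h4 := hD k w h1 h2 ((hTk k (Finset.mem_range.2 (by omega))).trans hT1')
      rw [norm_mul, mul_assoc, mul_assoc]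
      apply mul_le_mul_of_nonneg_left _ (norm_nonneg _)
      rw [← hL, ← hl] at h4
      have h5 : ‖(l : ℂ) ^ k * xi w‖ = l ^ k * ‖xi w‖ := by
        rw [norm_mul, norm_pow, Complex.norm_real, Real.norm_eq_abs, abs_of_pos hl0]
      have h6 : l ^ k ≤ l ^ d / l := by
        rw [le_div_iff₀ hl0, ← pow_succ]
        exact pow_le_pow_right₀ hl1 (by omega)
      have h7 : l ^ k / l ≤ l ^ d / l :=
        div_le_div_of_nonneg_right (pow_le_pow_right₀ hl1 hk.le) hl0.le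
      calc ‖iteratedDeriv k xi w‖
          = ‖(iteratedDeriv k xi w - (l : ℂ) ^ k * xi w) + (l : ℂ) ^ k * xi w‖ := by congr 1; ring
        _ ≤ D k * ‖xi w‖ * l ^ k / l + l ^ k * ‖xi w‖ :=
            (norm_add_le _ _).trans (add_le_add h4 h5.le)
        _ = D k * (l ^ k / l) * ‖xi w‖ + l ^ k * ‖xi w‖ := by ring
        _ ≤ D k * (l ^ d / l) * ‖xi w‖ + (l ^ d / l) * ‖xi w‖ := by
            have := hD0 k
            gcongr
        _ = (D k + 1) * (l ^ d / l * ‖xi w‖) := by ring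
    · have h4 := hD d w h1 h2 ((hTk d (Finset.mem_range.2 (by omega))).trans hT1')
      rw [norm_mul, mul_assoc, mul_assoc]
      apply mul_le_mul_of_nonneg_left _ (norm_nonneg _)
      rw [← hL, ← hl] at h4
      refine h4.trans ?_
      have : 0 ≤ l ^ d / l * ‖xi w‖ := by positivity
      have e2 : D d * ‖xi w‖ * l ^ d / l = D d * (l ^ d / l * ‖xi w‖) := by ring
      rw [e2]
      nlinarith
  have hlead : ‖P.leadingCoeff * ((l : ℂ) ^ d * xi w)‖ = a * (l ^ d * ‖xi w‖) := by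
    rw [norm_mul, norm_mul, norm_pow, Complex.norm_real, Real.norm_eq_abs, abs_of_pos hl0]
  have hsmall : S * (l ^ d / l) ≤ a / 2 * l ^ d := by
    have h4 : 2 * S / a ≤ l := by linarith
    rw [div_le_iff₀ hlc0] at h4
    rw [mul_div_assoc', div_le_iff₀ hl0]
    have : 0 ≤ l ^ d := by positivity
    nlinarith
  have hLd : l ^ d = (1 / 2) ^ d * L ^ d := by
    rw [hl, ← mul_pow]; congr 1; ring
  have hmain' : S * (l ^ d / l) * ‖xi w‖ ≤ a / 2 * l ^ d * ‖xi w‖ :=
    mul_le_mul_of_nonneg_right hsmall hxi0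
  constructor
  · have h5 := norm_sub_norm_le (P.leadingCoeff * ((l : ℂ) ^ d * xi w)) (Op P xi w)
    rw [norm_sub_rev, hlead] at h5
    have h6 : a / 2 * l ^ d * ‖xi w‖ ≤ ‖Op P xi w‖ := by
      have : a * (l ^ d * ‖xi w‖) = 2 * (a / 2 * l ^ d * ‖xi w‖) := by ring
      linarith
    refine le_trans ?_ h6
    rw [hLd]
    calc a / 2 * (1 / 2) ^ d * (c₁ / A) * L ^ d * sz w = a / 2 * ((1 / 2) ^ d * L ^ d) * (c₁ / A * sz w) := by
          ring
      _ ≤ _ := by
          have : 0 ≤ L := by linarith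
          gcongr
  · have h5 := norm_sub_norm_le (Op P xi w) (P.leadingCoeff * ((l : ℂ) ^ d * xi w))
    rw [hlead] at h5
    have h6 : S * (l ^ d / l) * ‖xi w‖ ≤ S * l ^ d * ‖xi w‖ := by
      apply mul_le_mul_of_nonneg_right _ hxi0
      apply mul_le_mul_of_nonneg_left _ hS0
      exact div_le_self (by positivity) hl1
    have hL0 : 0 ≤ L := by linarith
    have h8 : l ^ d ≤ L ^ d := pow_le_pow_left₀ hl0.le (by rw [hl]; linarith) d
    calc ‖Op P xi w‖ ≤ a * (l ^ d * ‖xi w‖) + S * l ^ d * ‖xi w‖ := by linarith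
      _ = (a + S) * l ^ d * ‖xi w‖ := by ring
      _ ≤ (a + S) * L ^ d * (C₁ * A * sz w) := by gcongr
      _ = _ := by ring

end Pool.Agent.L7h13.XD
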