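import Pool.Agent.L7h13.XD.Zer

/-!
# Final statements
-/

set_option autoImplicit false

open Complex Set Metric Polynomial

namespace Pool.Agent.L7h13.XD

open Pool.Agent.L7h13.SP Pool.Agent.L7h13.XI H370

lemma cj_xi : cj xi = xi := by
  funext s
  unfold cj
  rw [xi_conj', Complex.conj_conj]

lemma opx_cp (P : ℂ[X]) : Op (cp P) xi = cj (Op P xi) := by
  funext s
  unfold Op cp
  rw [Polynomial.natDegree_map_eq_of_injective (starRingEnd ℂ).injective]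
  unfold cj
  rw [map_sum]
  apply Finset.sum_congr rfl
  intro k _
  rw [Polynomial.coeff_map, map_mul]
  congr 1
  have h := cj_iter xi k
  rw [cj_xi] at h
  have h2 := congrFun h s
  rw [h2]
  rfl

/-- the polynomial `P(-X)` -/
noncomputable def np (P : ℂ[X]) : ℂ[X] := P.comp (C (-1) * X)

lemma np_coeff (P : ℂ[X]) (k : ℕ) : (np P).coeff k = P.coeff k * (-1) ^ k := by
  unfold np
  rw [Polynomial.comp_C_mul_X_coeff]

lemma np_deg (P : ℂ[X]) : (np P).natDegree = P.natDegree := by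
  unfold np
  rw [Polynomial.natDegree_comp, Polynomial.natDegree_C_mul_X _ (by norm_num), mul_one]

lemma np_ne {P : ℂ[X]} (hP : P ≠ 0) : np P ≠ 0 := by
  intro h
  apply hP
  ext k
  have h1 := np_coeff P k
  rw [h, coeff_zero] at h1
  rw [coeff_zero]
  rcases mul_eq_zero.1 h1.symm with h2 | h2
  · exact h2
  · exfalso
    exact pow_ne_zero k (by norm_num) h2

lemma opx_refl (P : ℂ[X]) : (fun w => Op P xi (1 - w)) = Op (np P) xi := by
  funext w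
  unfold Op
  rw [np_deg]
  apply Finset.sum_congr rfl
  intro k _
  rw [np_coeff]
  have h := congrFun (iteratedDeriv_comp_const_sub k xi (1 : ℂ)) w
  have h2 : (fun z => xi (1 - z)) = xi := funext xi_one_sub
  rw [h2] at h
  rw [h, smul_eq_mul, ← mul_assoc, mul_assoc (P.coeff k), ← mul_pow]
  norm_num

lemma np_root {P : ℂ[X]} {lam : ℂ} (h : (np P).IsRoot lam) : P.IsRoot (-lam) := by
  unfold np at h
  unfold IsRoot at h ⊢
  rw [Polynomial.eval_comp] at h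
  simpa using h

lemma cp_root {P : ℂ[X]} {lam : ℂ} (h : (cp P).IsRoot lam) : P.IsRoot ((starRingEnd ℂ) lam) := by
  unfold cp at h
  unfold IsRoot at h ⊢
  rw [Polynomial.eval_map] at h
  have h1 := Polynomial.eval₂_at_apply (p := P) (starRingEnd ℂ) ((starRingEnd ℂ) lam)
  rw [Complex.conj_conj, h] at h1
  exact (starRingEnd ℂ).injective (by rw [← h1, map_zero])

/-- no root with imaginary part `π/4`, or none with imaginary part `-π/4` -/
def Adm (P : ℂ[X]) : Prop := (∀ lam, P.IsRoot lam → lam.im ≠ Real.pi / 4) ∨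
  ∀ lam, P.IsRoot lam → lam.im ≠ -(Real.pi / 4)

lemma np_adm {P : ℂ[X]} (h : Adm P) : Adm (np P) := by
  rcases h with h | h
  · right
    intro lam hl h1
    apply h _ (np_root hl)
    rw [Complex.neg_im, h1, neg_neg]
  · left
    intro lam hl h1
    apply h _ (np_root hl)
    rw [Complex.neg_im, h1]

lemma few_refl {f : ℂ → ℂ} (hf : ∀ s, AnalyticAt ℂ f s) {E E' : Set ℝ} {θ : ℝ}
    (hE : ∀ x, x ∈ E' → 1 - x ∈ E) (h : FewQ f E θ) : FewQ (fun w => f (1 - w)) E' θ := by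
  classical
  obtain ⟨T₁, hT1⟩ := h
  refine ⟨T₁, fun T hT S hS => ?_⟩
  have h3 := hT1 (-T) (by rw [abs_neg]; exact hT) (S.image (fun s => 1 - s)) (by
    intro z hz
    rw [Finset.mem_image] at hz
    obtain ⟨w, hw, rfl⟩ := hz
    obtain ⟨h4, h5⟩ := hS w hw
    refine ⟨by simpa using hE _ h4, ?_⟩
    rw [Complex.sub_im, Complex.one_im]
    have : 0 - w.im - -T = -(w.im - T) := by ring
    rw [this, abs_neg]
    exact h5)
  rw [Finset.sum_image (fun x _ y _ h => sub_right_injective h), abs_neg] at h3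
  refine le_trans (le_of_eq ?_) h3
  apply Finset.sum_congr rfl
  intro z hz
  have := mult_refl (z := z) (hf (1 - z))
  unfold mult at this
  rw [this]

lemma few_conj {f : ℂ → ℂ} (hf : ∀ s, AnalyticAt ℂ f s) {E : Set ℝ} {θ : ℝ}
    (h : FewQ f E θ) : FewQ (cj f) E θ := by
  classical
  obtain ⟨T₁, hT1⟩ := h
  refine ⟨T₁, fun T hT S hS => ?_⟩
  have h3 := hT1 (-T) (by rw [abs_neg]; exact hT) (S.image (starRingEnd ℂ)) (by
    intro z hz
    rw [Finset.mem_image] at hz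
    obtain ⟨w, hw, rfl⟩ := hz
    obtain ⟨h4, h5⟩ := hS w hw
    refine ⟨by simpa using h4, ?_⟩
    rw [Complex.conj_im]
    have : -w.im - -T = -(w.im - T) := by ring
    rw [this, abs_neg]
    exact h5)
  rw [Finset.sum_image (fun x _ y _ h => (starRingEnd ℂ).injective h), abs_neg] at h3
  refine le_trans (le_of_eq ?_) h3
  apply Finset.sum_congr rfl
  intro z hz
  have := mult_cj (s := z) (hf ((starRingEnd ℂ) z))
  unfold mult at this
  rw [this]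

/-- the bounds imply few zeros to the right -/
theorem right_few {P : ℂ[X]} (hP : P ≠ 0) {σ₀ : ℝ} (h0 : 1 / 2 ≤ σ₀) (h1 : σ₀ < 1)
    (h : Bd σ₀) {δ θ : ℝ} (hδ : 0 < δ) (hθ : 0 < θ) : FewQ (Op P xi) (Icc (σ₀ + δ) 4) θ := by
  have key : ∀ (Q : ℂ[X]), Q ≠ 0 → FewU (Op Q xi) (Icc (σ₀ + δ) 4) 1 θ := by
    intro Q hQ
    set δ' := min δ (1 / 10) with hδ'
    have h2 : 0 < δ' := lt_min hδ (by norm_num)
    have h3 : δ' ≤ δ := min_le_left _ _
    have h4 : δ' ≤ 1 / 10 := min_le_right _ _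
    obtain ⟨c, hc, hcov⟩ := FewU.cover (f := Op Q xi) (E := Icc (σ₀ + δ') 5) (y := δ' / 4)
      (by positivity) 1
    have h6 := opx_jensen hQ h0 h1 (fun σ h7 _ => exu_of_bd h h7) h2 h4
      (ε := θ / c) (by positivity)
    have h7 := hcov _ (by positivity) h6
    rw [mul_div_cancel₀ _ hc.ne'] at h7
    exact h7.mono (fun x hx => by
      simp only [mem_Icc] at hx ⊢
      constructor <;> linarith [hx.1, hx.2]) le_rfl
  refine few_of_upper (fun s _ => opx_an P s) (key P hP) ?_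
  rw [← opx_cp]
  exact key _ (cp_ne hP)

/-- the bounds imply few zeros to the left -/
theorem left_few {P : ℂ[X]} (hP : P ≠ 0) {σ₀ : ℝ} (h0 : 1 / 2 ≤ σ₀) (h1 : σ₀ < 1)
    (h : Bd σ₀) {δ θ : ℝ} (hδ : 0 < δ) (hθ : 0 < θ) : FewQ (Op P xi) (Icc (-3) (1 - σ₀ - δ)) θ := by
  have h2 := right_few (np_ne hP) h0 h1 h hδ hθ
  have h3 := few_refl (fun s => opx_an (np P) s) (E' := Icc (-3) (1 - σ₀ - δ)) (fun x hx => by
    simp only [mem_Icc] at hx ⊢
    constructor <;> linarith [hx.1, hx.2]) h2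
  have e : (fun w => Op (np P) xi (1 - w)) = Op P xi := by
    funext w
    rw [← opx_refl]
    simp
  rwa [e] at h3

/-- few zeros to the right imply a bound -/
theorem right_back {P : ℂ[X]} (hP : P ≠ 0) (hA : Adm P) {σ₀ : ℝ} (h0 : 1 / 2 ≤ σ₀) (h1 : σ₀ < 1)
    {δ : ℝ} (hδ : 0 < δ) (hδ1 : δ ≤ 1 / 10) {κ : ℝ} (hκ : 0 < κ) :
    ∃ θ : ℝ, 0 < θ ∧ (FewQ (Op P xi) (Icc (σ₀ + δ) 4) θ → Exu (σ₀ + 2 * δ) κ) := by
  rcases hA with hA | hA
  · obtain ⟨θ, hθ, h⟩ := exu_right hP hA h0 h1 hδ hδ1 hκ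
    exact ⟨θ, hθ, fun h2 => h (few_up h2)⟩
  · obtain ⟨θ, hθ, h⟩ := exu_right (cp_ne hP) (fun lam hl h2 => by
      apply hA _ (cp_root hl)
      rw [Complex.conj_im, h2]) h0 h1 hδ hδ1 hκ
    refine ⟨θ, hθ, fun h2 => h ?_⟩
    rw [opx_cp]
    exact few_up (few_conj (fun s => opx_an P s) h2)

/-- few zeros to the left imply a bound -/
theorem left_back {P : ℂ[X]} (hP : P ≠ 0) (hA : Adm P) {σ₀ : ℝ} (h0 : 1 / 2 ≤ σ₀) (h1 : σ₀ < 1)
    {δ : ℝ} (hδ : 0 < δ) (hδ1 : δ ≤ 1 / 10) {κ : ℝ} (hκ : 0 < κ) :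
    ∃ θ : ℝ, 0 < θ ∧ (FewQ (Op P xi) (Icc (-3) (1 - σ₀ - δ)) θ → Exu (σ₀ + 2 * δ) κ) := by
  obtain ⟨θ, hθ, h⟩ := right_back (np_ne hP) (np_adm hA) h0 h1 hδ hδ1 hκ
  refine ⟨θ, hθ, fun h2 => h ?_⟩
  rw [← opx_refl]
  exact few_refl (fun s => opx_an P s) (fun x hx => by
    simp only [mem_Icc] at hx ⊢
    constructor <;> linarith [hx.1, hx.2]) h2

lemma fq_theta {f : ℂ → ℂ} {E : Set ℝ} {θ θ' : ℝ} (h : θ ≤ θ') (hf : FewQ f E θ) : FewQ f E θ' := by
  obtain ⟨T₀, hT⟩ := hf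
  refine ⟨max T₀ 1, fun T hT' S hS => (hT T ((le_max_left _ _).trans hT') S hS).trans ?_⟩
  apply mul_le_mul_of_nonneg_right h (Real.log_nonneg ((le_max_right _ _).trans hT'))

/-- one side, quantitative -/
theorem quant {P : ℂ[X]} (hP : P ≠ 0) (hA : Adm P) {σ₀ : ℝ} (h0 : 1 / 2 ≤ σ₀) (h1 : σ₀ < 1)
    {κ : ℝ} (hκ : 0 < κ) : ∃ δ θ : ℝ, 0 < δ ∧ 0 < θ ∧
    (FewQ (Op P xi) (Icc (σ₀ + δ) 4) θ ∨ FewQ (Op P xi) (Icc (-3) (1 - σ₀ - δ)) θ →
      ∃ C : ℝ, ∀ t : ℝ, 1 ≤ |t| → ‖riemannZeta (σ₀ + t * I)‖ ≤ C * |t| ^ κ) := by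
  set δ : ℝ := min (κ / 2) (1 / 10) with hδ
  have hδ0 : 0 < δ := lt_min (by positivity) (by norm_num)
  have hδ1 : δ ≤ κ / 2 := min_le_left _ _
  have hδ2 : δ ≤ 1 / 10 := min_le_right _ _
  obtain ⟨θ₁, hθ1, H1⟩ := right_back hP hA h0 h1 hδ0 hδ2 (κ := κ / 4) (by positivity)
  obtain ⟨θ₂, hθ2, H2⟩ := left_back hP hA h0 h1 hδ0 hδ2 (κ := κ / 4) (by positivity)
  refine ⟨δ, min θ₁ θ₂, hδ0, lt_min hθ1 hθ2, fun h => ?_⟩
  have key : Exu (σ₀ + 2 * δ) (κ / 4) := by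
    rcases h with h | h
    · exact H1 (fq_theta (min_le_left _ _) h)
    · exact H2 (fq_theta (min_le_right _ _) h)
  have h4 := key.left' (σ' := σ₀) (by linarith) (by linarith) (by linarith) (by linarith)
  have h5 : Exu σ₀ (3 * κ / 4) := h4.mono (by linarith)
  have h6 := bd_line (by positivity) h5 (ε := κ / 4) (by positivity)
  have e : 3 * κ / 4 + κ / 4 = κ := by ring
  rwa [e] at h6

theorem right_iff {P : ℂ[X]} (hP : P ≠ 0) (hA : Adm P) {σ₀ : ℝ} (h0 : 1 / 2 ≤ σ₀) (h1 : σ₀ < 1) :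
    Bd σ₀ ↔ ∀ δ θ : ℝ, 0 < δ → 0 < θ → FewQ (Op P xi) (Icc (σ₀ + δ) 4) θ := by
  constructor
  · intro h δ θ hδ hθ
    exact right_few hP h0 h1 h hδ hθ
  · intro h
    apply bd_of_near h0
    intro η κ hη hκ
    set δ : ℝ := min (η / 2) (1 / 10) with hδ
    have d0 : 0 < δ := lt_min (by positivity) (by norm_num)
    have d1 : δ ≤ η / 2 := min_le_left _ _
    have d2 : δ ≤ 1 / 10 := min_le_right _ _
    obtain ⟨θ, hθ, G⟩ := right_back hP hA h0 h1 d0 d2 hκ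
    exact ⟨σ₀ + 2 * δ, by linarith, by linarith, by linarith, G (h δ θ d0 hθ)⟩

theorem left_iff {P : ℂ[X]} (hP : P ≠ 0) (hA : Adm P) {σ₀ : ℝ} (h0 : 1 / 2 ≤ σ₀) (h1 : σ₀ < 1) :
    Bd σ₀ ↔ ∀ δ θ : ℝ, 0 < δ → 0 < θ → FewQ (Op P xi) (Icc (-3) (1 - σ₀ - δ)) θ := by
  constructor
  · intro h δ θ hδ hθ
    exact left_few hP h0 h1 h hδ hθ
  · intro h
    apply bd_of_near h0
    intro η κ hη hκ
    set δ : ℝ := min (η / 2) (1 / 10) with hδ
    have d0 : 0 < δ := lt_min (by positivity) (by norm_num)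
    have d1 : δ ≤ η / 2 := min_le_left _ _
    have d2 : δ ≤ 1 / 10 := min_le_right _ _
    obtain ⟨θ, hθ, G⟩ := left_back hP hA h0 h1 d0 d2 hκ
    exact ⟨σ₀ + 2 * δ, by linarith, by linarith, by linarith, G (h δ θ d0 hθ)⟩

lemma op_pow (k : ℕ) (f : ℂ → ℂ) : Op (X ^ k) f = iteratedDeriv k f := by
  funext s
  unfold Op
  rw [Polynomial.natDegree_X_pow, Finset.sum_eq_single k]
  · rw [Polynomial.coeff_X_pow_self, one_mul]
  · intro j _ hj
    rw [Polynomial.coeff_X_pow, if_neg hj, zero_mul]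
  · intro h
    exact absurd (Finset.mem_range.2 (Nat.lt_succ_self k)) h

lemma pow_adm (k : ℕ) : Adm (X ^ k : ℂ[X]) := by
  left
  intro lam hl h
  unfold IsRoot at hl
  rw [Polynomial.eval_pow, Polynomial.eval_X] at hl
  have := eq_zero_of_pow_eq_zero hl
  rw [this, Complex.zero_im] at h
  have := Real.pi_pos
  linarith

lemma fq_union' {f : ℂ → ℂ} {E E' : Set ℝ} (h1 : ∀ θ : ℝ, 0 < θ → FewQ f E θ)
    (h2 : ∀ θ : ℝ, 0 < θ → FewQ f E' θ) {θ : ℝ} (hθ : 0 < θ) : FewQ f (E ∪ E') θ := by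
  have := fq_union (h1 (θ / 2) (by positivity)) (h2 (θ / 2) (by positivity))
  rwa [mul_div_cancel₀ _ (two_ne_zero)] at this

/-- the Lindelöf hypothesis and the zeros off the critical line -/
theorem lh_off {P : ℂ[X]} (hP : P ≠ 0) (hA : Adm P) :
    Bd (1 / 2) ↔ ∀ δ θ : ℝ, 0 < δ → 0 < θ → FewQ (Op P xi) {x | δ ≤ |x - 1 / 2| ∧ |x - 1 / 2| ≤ 7 / 2} θ := by
  constructor
  · intro h δ θ hδ hθ
    have k := fq_union' (fun θ hθ => right_few hP le_rfl (by norm_num) h hδ hθ)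
      (fun θ hθ => left_few hP le_rfl (by norm_num) h hδ hθ) hθ
    refine fq_mono k fun x hx => ?_
    obtain ⟨h1, h2⟩ := hx
    rw [abs_le] at h2
    rcases le_abs.1 h1 with h | h
    · left; constructor <;> linarith [h2.1, h2.2]
    · right; constructor <;> linarith [h2.1, h2.2]
  · intro h
    rw [right_iff hP hA le_rfl (by norm_num)]
    intro δ θ hδ hθ
    refine fq_mono (h δ θ hδ hθ) fun x hx => ?_
    have h1 : 0 ≤ x - 1 / 2 := by linarith [hx.1]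
    refine ⟨?_, ?_⟩
    · rw [abs_of_nonneg h1]; linarith [hx.1]
    · rw [abs_of_nonneg h1]; linarith [hx.2]

end Pool.Agent.L7h13.XD
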