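import Pool.Agent.L7h13.XD.Cen

/-!
# Zeros of `P(d/ds) ξ` and the size of zeta
-/

set_option autoImplicit false

open Complex Set Metric Polynomial

namespace Pool.Agent.L7h13.XD

open Pool.Agent.L7h13.SP Pool.Agent.L7h13.XI H370

lemma opx_diff (P : ℂ[X]) : Differentiable ℂ (Op P xi) := op_diff xi_diff P

lemma opx_an (P : ℂ[X]) (s : ℂ) : AnalyticAt ℂ (Op P xi) s := (opx_diff P).analyticAt s

lemma sz_tx {T : ℝ} (hT : 0 < T) {z : ℂ} (hz : 0 < z.im) : sz z * ‖tx 0 (Real.log T) z‖ =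
    (z.im / T) ^ ((z.re - 1 / 2) / 2 + 7 / 4) := by
  have h := sF_tx hT 0 hz
  rw [add_zero] at h
  rw [← h]
  unfold sz sF
  rw [add_zero]

lemma sz_tx_le {T : ℝ} (hT : 0 < T) {z : ℂ} (hz : 0 < z.im)
    (hz2 : z.im ≤ 2 * T) (g1 : 1 / 2 ≤ z.re) (g2 : z.re ≤ 4) :
    sz z * ‖tx 0 (Real.log T) z‖ ≤ 16 := by
  rw [sz_tx hT hz]
  have h2 : z.im / T ≤ 2 := by rw [div_le_iff₀ hT]; exact hz2
  calc (z.im / T) ^ ((z.re - 1 / 2) / 2 + 7 / 4) ≤ 2 ^ ((z.re - 1 / 2) / 2 + 7 / 4) :=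
        Real.rpow_le_rpow (by positivity) h2 (by linarith)
    _ ≤ 2 ^ (4:ℝ) := Real.rpow_le_rpow_of_exponent_le (by norm_num) (by linarith)
    _ = 16 := by norm_num

lemma sz_tx_one {T : ℝ} (hT : 0 < T) {z : ℂ} (hz : z.im = T) :
    sz z * ‖tx 0 (Real.log T) z‖ = 1 := by
  rw [sz_tx hT (by rw [hz]; exact hT), hz, div_self hT.ne', Real.one_rpow]

/-- the upper bound -/
lemma opx_up (P : ℂ[X]) {σ₀ : ℝ} (h0 : 1 / 2 ≤ σ₀) (h1 : σ₀ < 1)
    (H : ∀ σ : ℝ, σ₀ < σ → σ ≤ 1 → Exu σ 0) {ε : ℝ} (hε : 0 < ε) :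
    ∃ T₀ : ℝ, 4 ≤ T₀ ∧ ∀ z : ℂ, σ₀ ≤ z.re → z.re ≤ 4 → T₀ ≤ z.im →
      ‖Op P xi z‖ ≤ z.im ^ ε * sz z := by
  set e : ℝ := min (ε / 4) (1 / 8) with he
  have e0 : 0 < e := lt_min (by positivity) (by norm_num)
  have e1 : e ≤ ε / 4 := min_le_left _ _
  have e2 : e ≤ 1 / 8 := min_le_right _ _
  obtain ⟨T₁, hT1, hup⟩ := xi_up (h₀ := σ₀ - 1 / 2) (by linarith) (by linarith)
    (fun σ h2 h3 => H σ (by linarith) h3) e0
  obtain ⟨C, hC1, hC⟩ := op_le P e0
  obtain ⟨T₂, hT2, hab⟩ := absorb (C * (64 * Real.exp 1)) (ε := ε / 2) (by positivity)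
  refine ⟨T₁ + T₂ + 4, by linarith, fun z g1 g2 g3 => ?_⟩
  have ht0 : 0 < z.im := by linarith
  have ht4 : 4 ≤ z.im := by linarith
  have hsz : 0 < sz z := sz_pos ht0
  have key := hC xi z (64 * Real.exp 1 * z.im ^ ((e + 2 * e) / 2) * sz z) (by positivity)
    (xi_diff.diffContOnCl) (by
    intro w hw
    rw [mem_sphere, dist_eq_norm] at hw
    have a1 := abs_le.1 ((Complex.abs_re_le_norm (w - z)).trans hw.le)
    have a2 := abs_le.1 ((Complex.abs_im_le_norm (w - z)).trans hw.le)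
    rw [Complex.sub_re] at a1
    rw [Complex.sub_im] at a2
    have k1 := hup w (by rw [abs_le]; constructor <;> linarith) (by linarith)
    refine k1.trans ?_
    have k2 := sz_near (w := z) (v := ⟨e + 2 * e, w.im - z.im⟩) (t := z.im) rfl ht4 (by
      refine (Complex.norm_le_abs_re_add_abs_im _).trans ?_
      simp only
      rw [abs_of_pos (by linarith)]
      have := abs_le.2 a2
      linarith) (by linarith) (by linarith)
    refine le_trans ?_ k2
    unfold sz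
    simp only [Complex.add_re, Complex.add_im]
    have e3 : z.im + (w.im - z.im) = w.im := by ring
    rw [e3]
    apply mul_le_mul_of_nonneg_right _ (Real.exp_pos _).le
    apply Real.rpow_le_rpow_of_exponent_le (by linarith)
    have : max (σ₀ - 1 / 2) |w.re - 1 / 2| ≤ z.re + e - 1 / 2 := by
      apply max_le (by linarith)
      rw [abs_le]; constructor <;> linarith
    linarith)
  refine key.trans ?_
  have k := hab z.im (by linarith)
  calc C * (64 * Real.exp 1 * z.im ^ ((e + 2 * e) / 2) * sz z)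
      = (C * (64 * Real.exp 1)) * z.im ^ ((e + 2 * e) / 2) * sz z := by ring
    _ ≤ z.im ^ (ε / 2) * z.im ^ (ε / 2) * sz z := by
        apply mul_le_mul_of_nonneg_right _ hsz.le
        apply mul_le_mul k _ (by positivity) (by positivity)
        exact Real.rpow_le_rpow_of_exponent_le (by linarith) (by linarith)
    _ = z.im ^ ε * sz z := by rw [← Real.rpow_add ht0]; congr 2; ring

/-- the crude bound -/
lemma opx_crude (P : ℂ[X]) : ∃ T₀ : ℝ, 4 ≤ T₀ ∧ ∀ z : ℂ, 0 ≤ z.re → z.re ≤ 4 → T₀ ≤ z.im →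
      ‖Op P xi z‖ ≤ z.im ^ (6:ℝ) * sz z := by
  obtain ⟨c₁, C₁, hc1, hC1, hs⟩ := xi_size 5
  obtain ⟨D, hD1, hD⟩ := zgrow 5
  obtain ⟨C, hC1', hC⟩ := op_le P (r := 1 / 2) (by norm_num)
  obtain ⟨T₂, hT2, hab⟩ := absorb (C * (C₁ * (64 * Real.exp 1) * (D * 2 ^ (5:ℝ)))) (ε := 3 / 4) (by norm_num)
  refine ⟨T₂ + 4, by linarith, fun z g1 g2 g3 => ?_⟩
  have ht0 : 0 < z.im := by linarith
  have ht4 : 4 ≤ z.im := by linarith
  have hsz : 0 < sz z := sz_pos ht0
  have hD0 : 0 < D := by linarith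
  set t := z.im with ht
  have key := hC xi z (C₁ * (64 * Real.exp 1) * (D * 2 ^ (5:ℝ)) * (t ^ (1 / 4 : ℝ) * t ^ (5:ℝ) * sz z))
    (by positivity) (xi_diff.diffContOnCl) (by
    intro w hw
    rw [mem_sphere, dist_eq_norm] at hw
    have a1 := abs_le.1 ((Complex.abs_re_le_norm (w - z)).trans hw.le)
    have a2 := abs_le.1 ((Complex.abs_im_le_norm (w - z)).trans hw.le)
    have a3 : (w - z).re ≤ 1 / 2 := a1.2
    rw [Complex.sub_re] at a1
    rw [Complex.sub_im] at a2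
    have k1 := (hs w (by push_cast; linarith) (by push_cast; linarith) (by linarith)).2
    have k2 := hD w (by linarith) (by linarith) (by linarith)
    have k3 := sz_near (w := z) (v := w - z) (t := t) rfl ht4 (by linarith) (by linarith) (by linarith)
    rw [add_sub_cancel] at k3
    have hw0 : 0 < w.im := by linarith
    have hszw : 0 < sz w := sz_pos hw0
    have k4 : w.im ^ (5:ℝ) ≤ 2 ^ (5:ℝ) * t ^ (5:ℝ) := by
      rw [← Real.mul_rpow (by norm_num) ht0.le]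
      exact Real.rpow_le_rpow hw0.le (by linarith) (by norm_num)
    have k5 : t ^ ((w - z).re / 2) ≤ t ^ (1 / 4 : ℝ) :=
      Real.rpow_le_rpow_of_exponent_le (by linarith) (by linarith)
    calc ‖xi w‖ ≤ C₁ * sz w * ‖riemannZeta w‖ := k1
      _ ≤ C₁ * (64 * Real.exp 1 * t ^ (1 / 4 : ℝ) * sz z) * (D * (2 ^ (5:ℝ) * t ^ (5:ℝ))) := by
          apply mul_le_mul _ _ (norm_nonneg _) (by positivity)
          · apply mul_le_mul_of_nonneg_left _ hC1.le
            refine k3.trans ?_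
            gcongr
          · refine k2.trans ?_
            gcongr
      _ = _ := by ring)
  refine key.trans ?_
  have k := hab t (by linarith)
  calc C * (C₁ * (64 * Real.exp 1) * (D * 2 ^ (5:ℝ)) * (t ^ (1 / 4 : ℝ) * t ^ (5:ℝ) * sz z))
      = (C * (C₁ * (64 * Real.exp 1) * (D * 2 ^ (5:ℝ)))) * (t ^ (1 / 4 : ℝ) * t ^ (5:ℝ) * sz z) := by ring
    _ ≤ t ^ (3 / 4 : ℝ) * (t ^ (1 / 4 : ℝ) * t ^ (5:ℝ) * sz z) :=
        mul_le_mul_of_nonneg_right k (by positivity)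
    _ = t ^ (6:ℝ) * sz z := by
        rw [← mul_assoc, ← mul_assoc, ← Real.rpow_add ht0, ← Real.rpow_add ht0]
        norm_num

/-- few zeros to the right -/
lemma opx_jensen {P : ℂ[X]} (hP : P ≠ 0) {σ₀ : ℝ} (h0 : 1 / 2 ≤ σ₀) (h1 : σ₀ < 1)
    (H : ∀ σ : ℝ, σ₀ < σ → σ ≤ 1 → Exu σ 0) {δ : ℝ} (hδ : 0 < δ) (hδ1 : δ ≤ 1 / 10) {ε : ℝ}
    (hε : 0 < ε) : FewU (Op P xi) (Icc (σ₀ + δ) 5) (δ / 4) ε := by
  classical
  set R : ℝ := 2 - σ₀ - δ / 2 with hR
  obtain ⟨η, hη, hJ⟩ := gjensen (R := R) (δ := δ / 4) (by positivity) (by linarith) hε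
  obtain ⟨T₁, hT1, hG⟩ := opx_up P h0 h1 H (ε := η / 2) (by positivity)
  obtain ⟨c, C, T₂, hc0, hC0, hT2, hcen⟩ := opx_cen hP
  obtain ⟨T₃, hT31, hT3⟩ := absorb (16 * 2 ^ (η / 2)) (ε := η / 2) (by positivity)
  obtain ⟨T₄, hT41, hT4⟩ := absorb (1 / c) (ε := η) (by positivity)
  refine ⟨T₁ + T₂ + T₃ + T₄ + 5, fun T hT S hS => ?_⟩
  have hT0 : 0 < T := by linarith
  have hl1 : 1 ≤ Real.log T := by
    rw [Real.le_log_iff_exp_le hT0]
    have := Real.exp_one_lt_d9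
    linarith
  set L := Real.log T with hL
  have hexp : ∀ p : ℝ, Real.exp (p * L) = T ^ p := fun p => by
    rw [Real.rpow_def_of_pos hT0, mul_comm]
  set f : ℂ → ℂ := fun z => Op P xi z * tx 0 L z with hf
  set c₀ : ℂ := ⟨2, T⟩ with hc₀
  have hball : ∀ z ∈ closedBall c₀ R, σ₀ + δ / 2 ≤ z.re ∧ z.re ≤ 4 ∧ T - 2 ≤ z.im ∧ z.im ≤ T + 2 := by
    intro z hz
    rw [mem_closedBall, dist_eq_norm] at hz
    have g1 := abs_le.1 ((Complex.abs_re_le_norm (z - c₀)).trans hz)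
    have g2 := abs_le.1 ((Complex.abs_im_le_norm (z - c₀)).trans hz)
    rw [Complex.sub_re] at g1
    rw [Complex.sub_im] at g2
    simp only [hc₀] at g1 g2
    refine ⟨by linarith, by linarith, by linarith, by linarith⟩
  rw [← Finset.sum_filter_add_sum_filter_not S (fun z => z.re ≤ 3 / 2)]
  have hz0 : ∑ z ∈ S.filter (fun z => ¬ z.re ≤ 3 / 2), (mult (Op P xi) z : ℝ) = 0 := by
    apply Finset.sum_eq_zero
    intro z hz
    rw [Finset.mem_filter, not_le] at hz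
    obtain ⟨g1, g2⟩ := hS z hz.1
    have g2 := abs_le.1 g2
    have g3 := (hcen z hz.2.le g1.2 (by linarith)).1
    have hz0 : 0 < z.im := by linarith
    have hlz : 0 < Real.log z.im := Real.log_pos (by linarith)
    have hsz := sz_pos hz0
    rw [mult_pos_zero (opx_an P z) (by
      intro h
      rw [h, norm_zero] at g3
      have : 0 < c * Real.log z.im ^ P.natDegree * sz z := by positivity
      linarith)]
    exact Nat.cast_zero
  rw [hz0, add_zero]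
  have key := hJ L (by linarith) f c₀ (by
    intro z hz
    exact (opx_an P z).mul (tx_an 0 L z)) (by
    intro z hz
    obtain ⟨g1, g2, g3, g4⟩ := hball z hz
    have g5 := hG z (by linarith) g2 (by linarith)
    have hz0 : 0 < z.im := by linarith
    have g6 := sz_tx_le hT0 hz0 (by linarith) (by linarith) g2
    rw [← hL] at g6
    rw [hexp]
    simp only [hf]
    rw [norm_mul]
    calc ‖Op P xi z‖ * ‖tx 0 L z‖ ≤ (z.im ^ (η / 2) * sz z) * ‖tx 0 L z‖ :=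
          mul_le_mul_of_nonneg_right g5 (norm_nonneg _)
      _ = z.im ^ (η / 2) * (sz z * ‖tx 0 L z‖) := by ring
      _ ≤ (2 * T) ^ (η / 2) * 16 := by
          apply mul_le_mul _ g6 (mul_nonneg (sz_pos hz0).le (norm_nonneg _)) (by positivity)
          exact Real.rpow_le_rpow hz0.le (by linarith) (by positivity)
      _ = (16 * 2 ^ (η / 2)) * T ^ (η / 2) := by
          rw [Real.mul_rpow (by norm_num) hT0.le]; ring
      _ ≤ T ^ (η / 2) * T ^ (η / 2) := mul_le_mul_of_nonneg_right (hT3 T (by linarith)) (by positivity)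
      _ = T ^ η := by rw [← Real.rpow_add hT0]; congr 1; ring) (by
    have g1 := (hcen c₀ (by simp only [hc₀]; norm_num) (by simp only [hc₀]; norm_num)
      (by simp only [hc₀]; linarith)).1
    have g2 := sz_tx_one hT0 (z := c₀) rfl
    rw [← hL] at g2
    simp only [hf]
    rw [norm_mul, show -(η * L) = (-η) * L by ring, hexp]
    have g3 : T ^ (-η) ≤ c := by
      have g4 := hT4 T (by linarith)
      rw [Real.rpow_neg hT0.le]
      rw [inv_le_comm₀ (by positivity) hc0, ← one_div]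
      exact g4
    have g5 : c * sz c₀ ≤ ‖Op P xi c₀‖ := by
      refine le_trans ?_ g1
      have e1 : c₀.im = T := rfl
      rw [e1, ← hL]
      have : (1:ℝ) ≤ L ^ P.natDegree := one_le_pow₀ hl1
      have hsz : 0 < sz c₀ := sz_pos hT0
      have h3 : c * sz c₀ * 1 ≤ c * sz c₀ * L ^ P.natDegree :=
        mul_le_mul_of_nonneg_left this (by positivity)
      linarith [h3]
    calc T ^ (-η) ≤ c * 1 := by rw [mul_one]; exact g3
      _ = (c * sz c₀) * ‖tx 0 L c₀‖ := by rw [← g2]; ring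
      _ ≤ _ := mul_le_mul_of_nonneg_right g5 (norm_nonneg _))
    (S.filter fun z => z.re ≤ 3 / 2) (by
      intro z hz
      rw [Finset.mem_filter] at hz
      obtain ⟨g1, g2⟩ := hS z hz.1
      simp only [mem_Icc] at g1
      rw [mem_closedBall, dist_eq_norm]
      refine (Complex.norm_le_abs_re_add_abs_im _).trans ?_
      rw [Complex.sub_re, Complex.sub_im]
      simp only [hc₀]
      have g3 : |z.re - 2| ≤ 2 - σ₀ - δ := by
        rw [abs_le]
        constructor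
        · linarith [g1.1]
        · linarith [hz.2]
      linarith)
  refine le_trans (le_of_eq ?_) key
  apply Finset.sum_congr rfl
  intro z hz
  rw [hf, mult_mul (opx_an P z) (tx_an 0 L z) (tx_ne 0 L z)]

/-- few zeros to the right give a bound -/
lemma opx_back {P : ℂ[X]} (hP : P ≠ 0) {σ₀ : ℝ} (h0 : 1 / 2 ≤ σ₀) (h1 : σ₀ < 1)
    {δ : ℝ} (hδ : 0 < δ) (hδ1 : δ ≤ 1 / 10) {κ : ℝ} (hκ : 0 < κ) : ∃ θ : ℝ, 0 < θ ∧
    (FewU (Op P xi) (Icc (σ₀ + δ) 4) 1 θ → ∃ T₀ : ℝ, 4 ≤ T₀ ∧ ∀ T : ℝ, T₀ ≤ T → ∀ x : ℝ,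
      σ₀ + 2 * δ ≤ x → x ≤ 2 → ‖Op P xi ⟨x, T⟩‖ ≤ T ^ κ * sz ⟨x, T⟩) := by
  obtain ⟨c, C, T₂, hc0, hC0, hT2, hcen⟩ := opx_cen hP
  set d := P.natDegree with hd
  set R : ℝ := 2 - σ₀ - 3 * δ / 2 with hR
  set B : ℝ := 1 + C * 2 ^ d * 16 + 1 / c with hB
  have hB1 : 1 ≤ B := by
    have : 0 ≤ C * 2 ^ d * 16 := by positivity
    have : 0 ≤ 1 / c := by positivity
    linarith
  obtain ⟨θ, hθ, L₀, hBL⟩ := gbacklund (R := R) (δ := δ / 4) (r := 1 / 4) (A := 7) (B := B)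
    (by positivity) (by linarith) (by norm_num) (by linarith) (by norm_num) hB1 (ε := κ / 2)
    (by positivity)
  obtain ⟨c', hc', hcov⟩ := FewU.cover (f := Op P xi) (E := Icc (σ₀ + δ) 4) one_pos 2
  refine ⟨θ / c', by positivity, fun hfew => ?_⟩
  have hcov' := hcov _ (by positivity) hfew
  rw [mul_div_cancel₀ _ hc'.ne'] at hcov'
  obtain ⟨T₃, hT3⟩ := hcov'
  obtain ⟨T₁, hT1, hG⟩ := opx_crude P
  obtain ⟨T₄, hT41, hT4⟩ := absorb (16 * 2 ^ (6:ℝ)) (ε := 1) one_pos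
  obtain ⟨T₅, hT51, hT5⟩ := log_absorb d (ε := κ / 2) (by positivity)
  have p3 := abs_nonneg T₃
  have pL := Real.exp_pos |L₀|
  refine ⟨T₁ + T₂ + |T₃| + T₄ + T₅ + Real.exp |L₀| + 10, by linarith, fun T hT x hx1 hx2 => ?_⟩
  have hT0 : 0 < T := by linarith
  have hl1 : 1 ≤ Real.log T := by
    rw [Real.le_log_iff_exp_le hT0]
    have := Real.exp_one_lt_d9
    linarith
  have hL0 : L₀ ≤ Real.log T := (le_abs_self L₀).trans
    ((Real.le_log_iff_exp_le hT0).2 (by linarith))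
  have f3' := hT3 T (by linarith [le_abs_self T₃])
  have f5 := hT5 T (by linarith)
  set L := Real.log T with hL
  have hLpos : 0 < L := by linarith
  have hLd : 0 < L ^ d := by positivity
  have hexp : ∀ p : ℝ, Real.exp (p * L) = T ^ p := fun p => by
    rw [Real.rpow_def_of_pos hT0, mul_comm]
  have hLc : ((L : ℂ) ^ d)⁻¹ ≠ 0 := by
    apply inv_ne_zero
    apply pow_ne_zero
    exact_mod_cast hLpos.ne'
  have hLn : ‖((L : ℂ) ^ d)⁻¹‖ = (L ^ d)⁻¹ := by
    rw [norm_inv, norm_pow, Complex.norm_real, Real.norm_eq_abs, abs_of_pos hLpos]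
  have hLinv1 : (L ^ d)⁻¹ ≤ 1 := inv_le_one_of_one_le₀ (one_le_pow₀ hl1)
  set f : ℂ → ℂ := fun z => Op P xi z * (tx 0 L z * ((L : ℂ) ^ d)⁻¹) with hf
  have hfn : ∀ z, ‖f z‖ = ‖Op P xi z‖ * ‖tx 0 L z‖ * (L ^ d)⁻¹ := by
    intro z
    simp only [hf]
    rw [norm_mul, norm_mul, hLn]
    ring
  set c₀ : ℂ := ⟨2, T⟩ with hc₀
  have hball : ∀ (ρ : ℝ) (z : ℂ), z ∈ closedBall c₀ ρ → 2 - ρ ≤ z.re ∧ z.re ≤ 2 + ρ ∧
      T - ρ ≤ z.im ∧ z.im ≤ T + ρ := by
    intro ρ z hz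
    rw [mem_closedBall, dist_eq_norm] at hz
    have g1 := abs_le.1 ((Complex.abs_re_le_norm (z - c₀)).trans hz)
    have g2 := abs_le.1 ((Complex.abs_im_le_norm (z - c₀)).trans hz)
    rw [Complex.sub_re] at g1
    rw [Complex.sub_im] at g2
    simp only [hc₀] at g1 g2
    refine ⟨by linarith, by linarith, by linarith, by linarith⟩
  have key := hBL L hL0 (by linarith) f c₀ (by
    intro z hz
    exact (opx_an P z).mul ((tx_an 0 L z).mul analyticAt_const)) (by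
    intro z hz
    obtain ⟨g1, g2, g3, g4⟩ := hball R z hz
    have g5 := hG z (by linarith) (by linarith) (by linarith)
    have hz0 : 0 < z.im := by linarith
    have g6 := sz_tx_le hT0 hz0 (by linarith) (by linarith) (by linarith)
    rw [← hL] at g6
    rw [hexp, hfn]
    calc ‖Op P xi z‖ * ‖tx 0 L z‖ * (L ^ d)⁻¹ ≤ ‖Op P xi z‖ * ‖tx 0 L z‖ * 1 :=
          mul_le_mul_of_nonneg_left hLinv1 (by positivity)
      _ = ‖Op P xi z‖ * ‖tx 0 L z‖ := mul_one _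
      _ ≤ (z.im ^ (6:ℝ) * sz z) * ‖tx 0 L z‖ :=
          mul_le_mul_of_nonneg_right g5 (norm_nonneg _)
      _ = z.im ^ (6:ℝ) * (sz z * ‖tx 0 L z‖) := by ring
      _ ≤ (2 * T) ^ (6:ℝ) * 16 := by
          apply mul_le_mul _ g6 (mul_nonneg (sz_pos hz0).le (norm_nonneg _)) (by positivity)
          exact Real.rpow_le_rpow hz0.le (by linarith) (by positivity)
      _ = (16 * 2 ^ (6:ℝ)) * T ^ (6:ℝ) := by
          rw [Real.mul_rpow (by norm_num) hT0.le]; ring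
      _ ≤ T ^ (1:ℝ) * T ^ (6:ℝ) := mul_le_mul_of_nonneg_right (hT4 T (by linarith)) (by positivity)
      _ = T ^ (7:ℝ) := by rw [← Real.rpow_add hT0]; norm_num) (by
    intro z hz
    obtain ⟨g1, g2, g3, g4⟩ := hball (1 / 4) z hz
    have g5 := (hcen z (by linarith) (by linarith) (by linarith)).2
    have hz0 : 0 < z.im := by linarith
    have g6 := sz_tx_le hT0 hz0 (by linarith) (by linarith) (by linarith)
    rw [← hL] at g6
    have g7 : Real.log z.im ^ d ≤ 2 ^ d * L ^ d := by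
      rw [← mul_pow]
      apply pow_le_pow_left₀ (Real.log_nonneg (by linarith))
      have h3 : Real.log z.im ≤ Real.log (T ^ 2) := Real.log_le_log hz0 (by nlinarith)
      rw [Real.log_pow] at h3
      exact_mod_cast h3
    rw [hfn]
    have hszz := sz_pos hz0
    calc ‖Op P xi z‖ * ‖tx 0 L z‖ * (L ^ d)⁻¹
        ≤ (C * Real.log z.im ^ d * sz z) * ‖tx 0 L z‖ * (L ^ d)⁻¹ := by gcongr
      _ ≤ (C * (2 ^ d * L ^ d) * sz z) * ‖tx 0 L z‖ * (L ^ d)⁻¹ := by gcongr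
      _ = C * 2 ^ d * (sz z * ‖tx 0 L z‖) := by field_simp
      _ ≤ C * 2 ^ d * 16 := mul_le_mul_of_nonneg_left g6 (by positivity)
      _ ≤ B := by
          have : 0 ≤ 1 / c := by positivity
          rw [hB]; linarith) (by
    have g1 := (hcen c₀ (by simp only [hc₀]; norm_num) (by simp only [hc₀]; norm_num)
      (by simp only [hc₀]; linarith)).1
    have g2 := sz_tx_one hT0 (z := c₀) rfl
    rw [← hL] at g2
    have e1 : c₀.im = T := rfl
    rw [e1, ← hL] at g1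
    rw [hfn]
    have g3 : 1 / B ≤ c := by
      rw [div_le_iff₀ (by linarith)]
      have g6 : 1 / c ≤ B := by
        have : 0 ≤ C * 2 ^ d * 16 := by positivity
        rw [hB]; linarith
      rw [div_le_iff₀ hc0] at g6
      linarith
    calc 1 / B ≤ c * 1 := by rw [mul_one]; exact g3
      _ = (c * L ^ d * sz c₀) * ‖tx 0 L c₀‖ * (L ^ d)⁻¹ := by
          rw [← g2]; field_simp
      _ ≤ _ := by gcongr) (by
    intro S hS
    refine le_trans (le_of_eq ?_) (f3' S fun z hz => ?_)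
    · apply Finset.sum_congr rfl
      intro z hz
      have h5 : tx 0 L z * ((L : ℂ) ^ d)⁻¹ ≠ 0 := mul_ne_zero (tx_ne 0 L z) hLc
      have h6 : mult f z = mult (Op P xi) z :=
        mult_mul (g := fun z => tx 0 L z * ((L : ℂ) ^ d)⁻¹) (opx_an P z)
          ((tx_an 0 L z).mul analyticAt_const) h5
      rw [h6]
    · obtain ⟨g1, g2, g3, g4⟩ := hball _ z (hS z hz).1
      refine ⟨?_, ?_⟩
      · simp only [mem_Icc]
        constructor <;> linarith
      · rw [abs_le]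
        constructor <;> linarith)
  have g1 := key ⟨x, T⟩ (by
    rw [mem_closedBall, dist_eq_norm]
    refine (Complex.norm_le_abs_re_add_abs_im _).trans ?_
    rw [Complex.sub_re, Complex.sub_im]
    simp only [hc₀, sub_self, abs_zero, add_zero]
    rw [abs_le]
    constructor <;> linarith)
  rw [hexp, hfn] at g1
  have g2 := sz_tx_one hT0 (z := ⟨x, T⟩) rfl
  rw [← hL] at g2
  have hS0 : 0 < sz ⟨x, T⟩ := sz_pos hT0
  calc ‖Op P xi ⟨x, T⟩‖ = (‖Op P xi ⟨x, T⟩‖ * ‖tx 0 L ⟨x, T⟩‖ * (L ^ d)⁻¹) * (L ^ d * sz ⟨x, T⟩) := by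
        have : ‖Op P xi ⟨x, T⟩‖ * ‖tx 0 L ⟨x, T⟩‖ * (L ^ d)⁻¹ * (L ^ d * sz ⟨x, T⟩) =
          ‖Op P xi ⟨x, T⟩‖ * (sz ⟨x, T⟩ * ‖tx 0 L ⟨x, T⟩‖) := by field_simp
        rw [this, g2, mul_one]
    _ ≤ T ^ (κ / 2) * (T ^ (κ / 2) * sz ⟨x, T⟩) := by
        apply mul_le_mul g1 _ (by positivity) (by positivity)
        exact mul_le_mul_of_nonneg_right f5 hS0.le
    _ = T ^ κ * sz ⟨x, T⟩ := by
        rw [← mul_assoc, ← Real.rpow_add hT0]
        congr 2
        ring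

/-- few zeros to the right give a bound for zeta -/
lemma exu_right {P : ℂ[X]} (hP : P ≠ 0) (hroot : ∀ lam, P.IsRoot lam → lam.im ≠ Real.pi / 4)
    {σ₀ : ℝ} (h0 : 1 / 2 ≤ σ₀) (h1 : σ₀ < 1)
    {δ : ℝ} (hδ : 0 < δ) (hδ1 : δ ≤ 1 / 10) {κ : ℝ} (hκ : 0 < κ) : ∃ θ : ℝ, 0 < θ ∧
    (FewU (Op P xi) (Icc (σ₀ + δ) 4) 1 θ → Exu (σ₀ + 2 * δ) κ) := by
  obtain ⟨θ, hθ, h⟩ := opx_back hP h0 h1 hδ hδ1 hκ
  refine ⟨θ, hθ, fun hfew => ?_⟩
  obtain ⟨T₀, hT0, hb⟩ := h hfew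
  set σ := σ₀ + 2 * δ with hσ
  have hmain := vert_poly xi_diff (σ := σ) (a := κ + ((σ - 1 / 2) / 2 + 7 / 4)) (by
    intro Q
    obtain ⟨T₁, hT1, hc⟩ := opx_crude Q
    refine ⟨6 + ((σ - 1 / 2) / 2 + 7 / 4), 1, T₁, fun t ht => ?_⟩
    have ht0 : 0 < t := by linarith
    have := hc ⟨σ, t⟩ (by simp only; linarith) (by simp only; linarith) ht
    refine this.trans (le_of_eq ?_)
    unfold sz
    simp only
    rw [Real.rpow_add ht0 6]
    ring) P.natDegree P rfl hP hroot ⟨1, T₀, zero_le_one, fun t ht => by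
    have ht0 : 0 < t := by linarith
    refine (hb t ht σ le_rfl (by linarith)).trans (le_of_eq ?_)
    unfold sz
    simp only
    rw [Real.rpow_add ht0 κ]
    ring⟩
  obtain ⟨K, T₂, hK, hT2⟩ := hmain
  apply exu_of_xi (by linarith) (by linarith)
  refine ⟨K, max T₂ 1, fun T hT => ?_⟩
  have hT0 : 0 < T := by linarith [(le_max_right T₂ 1).trans hT]
  refine (hT2 T ((le_max_left _ _).trans hT)).trans (le_of_eq ?_)
  unfold sz
  simp only
  rw [Real.rpow_add hT0 κ]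
  ring

end Pool.Agent.L7h13.XD
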